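import Pool.Agent.X310.MomDefs
import Pool.Agent.W498.Dom.Defs
import Pool.Agent.H914R2.StdDefs

/-!
# Geometric generic fibres and the conjecture A: definitions
-/

set_option autoImplicit false

open CategoryTheory AlgebraicGeometry

universe u v

namespace Pool.Agent.V5helper84.Mono

open Pool.Agent.H914 Pool.Agent.W498.Dom VarClass Obj WeilCohomology

/-- The ring homomorphism `res : A →+* B` of graded algebras over the fields `K` and `L` with the
sets `cA c` and `cB c` of the classes of cycles of codimension `c` is semilinear for the isomorphism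
`σ : K ≃+* L`, it preserves the degrees and the classes of cycles, the classes in `cB c` are linear
combinations of images of classes in `cA c`, and the kernel of `res` is the annihilator of `t`. -/
structure IsRestriction {K L A B : Type v} [Field K] [Field L] [Ring A] [Algebra K A] [Ring B]
    [Algebra L B] (grA : ℕ → Submodule K A) (grB : ℕ → Submodule L B) (cA : ℕ → Set A)
    (cB : ℕ → Set B) (t : A) (σ : K ≃+* L) (res : A →+* B) : Prop where
  res_smul : ∀ (a : K) (x : A), res (a • x) = σ a • res x
  res_gr : ∀ i, ∀ x ∈ grA i, res x ∈ grB i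
  res_cyc : ∀ c, ∀ x ∈ cA c, res x ∈ cB c
  cyc_mem : ∀ c, ∀ y ∈ cB c, y ∈ Submodule.span L (res '' cA c)
  res_eq_zero : ∀ x, res x = 0 ↔ t * x = 0

variable {k₀ k : Type u} [Field k₀] [Field k] {𝒱₀ : VarClass k₀} {𝒱 : VarClass k}
  {ops₀ : CycleOps 𝒱₀} {ops : CycleOps 𝒱}

/-- The classes of the cycles of codimension `c` on `X`. -/
def cycClasses (W : WeilCohomology.{u, v} ops) (X : 𝒱.Obj) (c : ℕ) : Set (W.H X) :=
  {y | ∃ z : X.Cycles, X.IsCyc c z ∧ W.cl X z = y}

/-- The variety `X` over `k` is a geometric generic fibre of the morphism `f : Z ⟶ S` of varieties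
over `k₀`, for a homomorphism of fields `φ : k₀ →+* k`. -/
structure IsGeometricFibre (φ : k₀ →+* k) (X : 𝒱.Obj) {Z S : 𝒱₀.Obj} (f : Z ⟶ S) where
  /-- the geometric generic point of `S` -/
  pt : Spec (.of k) ⟶ S.V.X
  /-- the projection from the fibre to the total space -/
  incl : X.V.X ⟶ Z.V.X
  pt_str : pt ≫ S.V.str = Spec.map (CommRingCat.ofHom φ)
  dominant : AlgebraicGeometry.IsDominant pt
  isPullback : IsPullback incl X.V.str f.hom pt
  dim : X.dim + S.dim = Z.dim

/-- The restriction of the cohomology of `Z` (over `k₀`) to the cohomology of the geometric generic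
fibre `X` (over `k`): a ring homomorphism, semilinear for an isomorphism of the coefficient fields,
which maps classes of cycles to classes of cycles; the classes of the cycles on `X` are linear
combinations of restrictions of classes of cycles on `Z`, and the kernel of the restriction is the
annihilator of `t`. -/
structure Restriction (W₀ : WeilCohomology.{u, v} ops₀) (W : WeilCohomology.{u, v} ops)
    (X : 𝒱.Obj) (Z : 𝒱₀.Obj) (t : W₀.H Z) where
  /-- the identification of the coefficient fields -/
  σ : W₀.K ≃+* W.K
  /-- the restriction in cohomology -/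
  res : W₀.H Z →+* W.H X
  isRestriction : IsRestriction (W₀.gr Z) (W.gr X) (cycClasses W₀ Z) (cycClasses W X) t σ res

/-- The variety `X` over `k` is a geometric generic fibre of a morphism `f : Z ⟶ S` of varieties
over `k₀` with the usual properties of the cohomology: the decomposition theorem and the relative
hard Lefschetz theorem for `f` and divisors `D` on `S` and `E` on `Z` (see
`PerverseDecomposition`), and the restriction `H(Z) → H(X)`. The kernel of the restriction is the
annihilator of the top power of the class of `f^* D`, which is proportional to the class of a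
fibre. -/
structure GenericFibre (φ : k₀ →+* k) (W₀ : WeilCohomology.{u, v} ops₀)
    (W : WeilCohomology.{u, v} ops) (X : 𝒱.Obj) (Z S : 𝒱₀.Obj) where
  /-- the family of varieties -/
  f : Z ⟶ S
  /-- `X` is its geometric generic fibre -/
  fibre : IsGeometricFibre φ X f
  /-- a divisor on `S` -/
  D : S.Cycles
  /-- a divisor on `Z` -/
  E : Z.Cycles
  isCyc_D : S.IsCyc 1 D
  isCyc_E : Z.IsCyc 1 E
  /-- the decomposition theorem for `f` -/
  perverse : PerverseDecomposition W₀ f D E
  /-- the restriction to the generic fibre in cohomology -/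
  R : Restriction W₀ W X Z (W₀.map f (W₀.cl S D ^ S.dim))

/-- The variety `V` over `k` is dominated by a geometric generic fibre `X` of a morphism `Z ⟶ S` of
varieties over `k₀`: the morphism `g : X ⟶ V` is dominant, and `g` satisfies the decomposition
theorem and the relative hard Lefschetz theorem for a divisor `D` on `V` which satisfies the hard
Lefschetz theorem and a divisor `E` on `X`. (The identity of `V` satisfies this theorem for every
`D` with hard Lefschetz, so `V` can be the geometric generic fibre itself.) -/
structure Spread (φ : k₀ →+* k) (W₀ : WeilCohomology.{u, v} ops₀)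
    (W : WeilCohomology.{u, v} ops) (V : 𝒱.Obj) (Z : 𝒱₀.Obj) where
  /-- the base -/
  S : 𝒱₀.Obj
  /-- the geometric generic fibre -/
  X : 𝒱.Obj
  fibre : GenericFibre φ W₀ W X Z S
  /-- the dominant morphism -/
  g : X ⟶ V
  dominant : Pool.Agent.W498.Dom.IsDominant ops g
  /-- a divisor on `V` -/
  D : V.Cycles
  /-- a divisor on `X` -/
  E : X.Cycles
  isCyc_D : V.IsCyc 1 D
  isCyc_E : X.IsCyc 1 E
  hard : HardLefschetz W V D
  /-- the decomposition theorem for `g` -/
  perverse : PerverseDecomposition W g D E

/-- The conjecture A for `V` and all divisors which satisfy the hard Lefschetz theorem. -/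
def AllA (W : WeilCohomology.{u, v} ops) (V : 𝒱.Obj) : Prop :=
  ∀ D : V.Cycles, V.IsCyc 1 D → HardLefschetz W V D → LefschetzA W V D

/-- The conjecture B for `V` and all divisors which satisfy the hard Lefschetz theorem. -/
def AllB (W : WeilCohomology.{u, v} ops) (V : 𝒱.Obj) : Prop :=
  ∀ D : V.Cycles, V.IsCyc 1 D → HardLefschetz W V D → LefschetzB W V D

/-- There is a divisor on `Z` which satisfies the hard Lefschetz theorem and the conjecture A. -/
def SomeA (W : WeilCohomology.{u, v} ops) (Z : 𝒱.Obj) : Prop :=
  ∃ E : Z.Cycles, Z.IsCyc 1 E ∧ HardLefschetz W Z E ∧ LefschetzA W Z E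

end Pool.Agent.V5helper84.Mono
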