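import Pool.Agent.V5helper84.Mono.Per
import Pool.Agent.V5helper84.Mono.Defs
import Pool.Agent.X310.Odd
import Pool.Agent.X310.Mom

/-!
# The defect of the conjecture A, generic fibres and images
-/

set_option autoImplicit false
set_option linter.unusedSectionVars false

open CategoryTheory AlgebraicGeometry Finset

universe u v

namespace Pool.Agent.V5helper84.Mono

open Pool.Agent.H914 Pool.Agent.H447 Pool.Agent.W498.Dom Pool.Agent.W534 Pool.Agent.X310
  Pool.Agent.X310.Mom VarClass Obj WeilCohomology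

section semilinear

universe w₁ w₂

variable {K L : Type*} [Field K] [Field L] {V : Type w₁} {U : Type w₂} [AddCommGroup V]
  [Module K V] [AddCommGroup U] [Module L U] [Module.Finite K V]

/-- Rank and nullity for a semilinear map. -/
lemma finrank_semi (σ : K ≃+* L) (r : V →+ U) (hr : ∀ a x, r (a • x) = σ a • r x)
    {A N : Submodule K V} (hN : ∀ x, x ∈ N ↔ r x = 0) {B : Submodule L U}
    (hAB : ∀ x ∈ A, r x ∈ B) (hsurj : ∀ y ∈ B, ∃ x ∈ A, r x = y) :
    (Module.finrank L B : ℤ) =
      Module.finrank K A - Module.finrank K (A ⊓ N : Submodule K V) := by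
  obtain ⟨C, hC⟩ := Submodule.exists_isCompl ((A ⊓ N).submoduleOf A)
  have h1 := Submodule.finrank_add_eq_of_isCompl hC
  have h2 : Module.finrank K ((A ⊓ N).submoduleOf A) = Module.finrank K (A ⊓ N : Submodule K V) :=
    LinearEquiv.finrank_eq (Submodule.submoduleOfEquivOfLe inf_le_left)
  let j : C →+ B :=
    { toFun := fun x => ⟨r x.1.1, hAB _ x.1.2⟩
      map_zero' := by
        ext
        simp
      map_add' := fun x y => by
        ext
        simp }
  have hj : Function.Bijective j := by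
    constructor
    · rw [injective_iff_map_eq_zero]
      intro x hx
      have h3 : r x.1.1 = 0 := congrArg Subtype.val hx
      have h4 : x.1 ∈ (A ⊓ N).submoduleOf A := ⟨x.1.2, (hN _).2 h3⟩
      have h5 : x.1 ∈ ((A ⊓ N).submoduleOf A) ⊓ C := ⟨h4, x.2⟩
      rw [hC.inf_eq_bot, Submodule.mem_bot] at h5
      exact Subtype.ext h5
    · rintro ⟨y, hy⟩
      obtain ⟨x, hx, rfl⟩ := hsurj y hy
      have h3 : (⟨x, hx⟩ : A) ∈ ((A ⊓ N).submoduleOf A) ⊔ C := by
        rw [hC.sup_eq_top]
        trivial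
      obtain ⟨a, ha, c, hc, hac⟩ := Submodule.mem_sup.1 h3
      refine ⟨⟨c, hc⟩, Subtype.ext ?_⟩
      change r c.1 = r x
      have h4 : x = a.1 + c.1 := by
        have := congrArg Subtype.val hac
        exact this.symm
      have h5 : r a.1 = 0 := (hN _).1 ha.2
      rw [h4, map_add, h5, zero_add]
  have h3 : Module.finrank K C = Module.finrank L B := by
    have h4 := lift_rank_eq_of_equiv_equiv (σ : K → L) (AddEquiv.ofBijective j hj) σ.bijective
      (fun a x => Subtype.ext (hr a x.1.1))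
    have h5 := congrArg Cardinal.toNat h4
    rwa [Cardinal.toNat_lift, Cardinal.toNat_lift] at h5
  omega

end semilinear

section one

variable {k : Type u} [Field k] {𝒱 : VarClass k} {ops : CycleOps 𝒱}
  {W : WeilCohomology.{u, v} ops}

/-- The defect as a sum over all integers. -/
lemma finsum_defect (X : 𝒱.Obj) :
    ∑ᶠ c : ℤ, (2 * c - (X.dim : ℤ)) * (Module.finrank W.K (spanCycles W X c) : ℤ) =
      defect W X := by
  rw [finsum_eq_sum_of_support_subset (s := (range (X.dim + 1)).map
    ⟨fun n : ℕ => (n : ℤ), Nat.cast_injective⟩)]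
  · rw [Finset.sum_map]
    rfl
  · intro c hc
    rw [Function.mem_support] at hc
    rw [Finset.coe_map, Set.mem_image]
    have h1 : 0 ≤ c := by
      by_contra h0
      apply hc
      rw [spanCycles_neg (by omega), finrank_bot, Nat.cast_zero, mul_zero]
    obtain ⟨q, rfl⟩ := Int.eq_ofNat_of_zero_le h1
    refine ⟨q, ?_, rfl⟩
    rw [Finset.coe_range, Set.mem_Iio]
    by_contra h0
    apply hc
    rw [spanCycles_large (by omega), finrank_bot, Nat.cast_zero, mul_zero]

lemma mul_cl {X : 𝒱.Obj} {D : X.Cycles} (hD : X.IsCyc 1 D) {c : ℤ} {x : W.H X}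
    (hx : x ∈ spanCycles W X c) : W.cl X D * x ∈ spanCycles W X (c + 1) := by
  induction hx using Submodule.span_induction with
  | mem x hx =>
    obtain ⟨p, hp, z, hz, rfl⟩ := hx
    refine Submodule.subset_span ⟨1 + p, by push_cast; omega, _, ops.mul_mem hD hz, ?_⟩
    rw [W.cl_mul]
  | zero => rw [mul_zero]; exact Submodule.zero_mem _
  | add x y _ _ hx hy => rw [mul_add]; exact Submodule.add_mem _ hx hy
  | smul a x _ hx => rw [mul_smul_comm]; exact Submodule.smul_mem _ _ hx

lemma stable {Y X : 𝒱.Obj} (f : Y ⟶ X) {D : X.Cycles} {E : Y.Cycles} (hD : X.IsCyc 1 D)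
    (hE : Y.IsCyc 1 E) :
    Stable (W.gr Y) (hop W f D) (eop W Y E) (fun c => spanCycles W Y c) where
  deg := fun c x hx => spanCycles_deg hx
  h := by
    intro c x hx
    rw [LinearMap.mulLeft_apply, ← W.cl_pull]
    exact mul_cl (ops.pull_mem f hD) hx
  e := by
    intro c x hx
    rw [LinearMap.mulLeft_apply]
    exact mul_cl hE hx

lemma push_span {Y X : 𝒱.Obj} (f : Y ⟶ X) {c d : ℤ} {x : W.H Y} (hx : x ∈ spanCycles W Y c)
    (hcd : c + X.dim = d + Y.dim) : W.push f x ∈ spanCycles W X d := by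
  induction hx using Submodule.span_induction with
  | mem x hx =>
    obtain ⟨p, hp, z, hz, rfl⟩ := hx
    by_cases hd : 0 ≤ d
    · obtain ⟨q, rfl⟩ := Int.eq_ofNat_of_zero_le hd
      rw [← W.cl_push]
      exact Submodule.subset_span ⟨q, rfl, _, ops.push_mem f hz (by omega), rfl⟩
    · have h1 := W.push_mem f (W.cl_mem hz)
      rw [grZ_of_neg (by push_cast; omega), Submodule.mem_bot] at h1
      rw [h1]
      exact Submodule.zero_mem _
  | zero => rw [map_zero]; exact Submodule.zero_mem _
  | add x y _ _ hx hy => rw [map_add]; exact Submodule.add_mem _ hx hy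
  | smul a x _ hx => rw [map_smul]; exact Submodule.smul_mem _ _ hx

lemma hop_pow_zero {Y X : 𝒱.Obj} (f : Y ⟶ X) {D : X.Cycles} (hD : X.IsCyc 1 D) :
    hop W f D ^ (X.dim + 1) = 0 := by
  apply LinearMap.ext
  intro x
  rw [hop_pow]
  have h1 := xi_mem (W := W) hD (X.dim + 1)
  rw [W.gr_eq_bot X _ (by omega)] at h1
  rw [(Submodule.mem_bot _).1 h1, map_zero, zero_mul, LinearMap.zero_apply]

/-- The images: the defect of the conjecture A does not increase. -/
theorem defect_image {Y X : 𝒱.Obj} {f : Y ⟶ X} {D : X.Cycles} {E : Y.Cycles}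
    (Q : PerverseDecomposition W f D E) (hD : X.IsCyc 1 D) (hE : Y.IsCyc 1 E)
    (hHL : HardLefschetz W X D) (hf : Pool.Agent.W498.Dom.IsDominant ops f) :
    defect W X ≤ defect W Y := by
  have S := setup Q hD hE rfl
  have hA := stable (W := W) f hD hE
  by_cases h1 : (1 : W.H X) = 0
  · have h0 : ∀ x : W.H X, x = 0 := fun x => by rw [← mul_one x, h1, mul_zero]
    have h2 : defect W X = 0 := by
      rw [← finsum_defect, finsum_eq_zero_of_forall_eq_zero]
      intro c
      have h3 : spanCycles W X c = ⊥ := by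
        rw [eq_bot_iff]
        intro x _
        rw [h0 x]
        exact Submodule.zero_mem _
      rw [h3, finrank_bot, Nat.cast_zero, mul_zero]
    rw [h2]
    have key := image_le S hA (s := X.dim) (B := fun _ => ⊥) (fun c => bot_le) (fun c => bot_le) (by
      rintro c d hcd hc x ⟨hx1, hx2⟩ hx3
      change (hop W f D ^ (X.dim - 2 * c)) x ∈ ⊥ ⊔ below Q.piece X.dim at hx3
      change x ∈ ⊥ ⊔ below Q.piece X.dim
      rw [bot_sup_eq] at hx3 ⊢
      have hxg : x ∈ W.gr Y (2 * c) := H914.span_gr hx1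
      have e2 : x ∈ below Q.piece (X.dim + 1) := hx2
      rw [mem_below S.iP S.bP] at e2 hx3 ⊢
      intro q' hq'
      rcases hq'.eq_or_lt with rfl | hlt
      · refine (S.hl X.dim (2 * c) (by omega)).1 _ ⟨proj_mem _ _ _, S.projP_gr hxg _⟩ ?_
        rw [S.pow_h_projP]
        exact hx3 _ le_rfl
      · exact e2 q' (by omega))
    refine le_trans (le_of_eq ?_) key
    rw [finsum_eq_zero_of_forall_eq_zero]
    intro c
    rw [finrank_bot, Nat.cast_zero, mul_zero]
  obtain ⟨r, hr⟩ : ∃ r, Y.dim = X.dim + r := ⟨Y.dim - X.dim, by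
    have := dim_le Q hD hE hHL hf h1; omega⟩
  obtain ⟨δ, hδ, hδ'⟩ := exists_delta Q hD hE hHL hf h1 hr
  have hinj : Function.Injective (W.map f).toLinearMap := by
    rw [← LinearMap.ker_eq_bot, LinearMap.ker_eq_bot']
    intro x hx
    exact map_inj hf hx
  have key := image_le S hA (s := X.dim)
    (B := fun c => (spanCycles W X c).map (W.map f).toLinearMap) (by
      rintro c _ ⟨x, hx, rfl⟩
      change W.map f x ∈ spanCycles W Y c
      induction hx using Submodule.span_induction with
      | mem x hx =>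
        obtain ⟨p, hp, z, hz, rfl⟩ := hx
        rw [← W.cl_pull]
        exact Submodule.subset_span ⟨p, hp, _, ops.pull_mem f hz, rfl⟩
      | zero => rw [map_zero]; exact Submodule.zero_mem _
      | add x y _ _ hx hy => rw [map_add]; exact Submodule.add_mem _ hx hy
      | smul a x _ hx => rw [map_smul]; exact Submodule.smul_mem _ _ hx) (by
      rintro c _ ⟨x, hx, rfl⟩
      exact map_piece Q hD hE hHL hf h1 x) (by
      rintro c d hcd hc x ⟨hx1, hx2⟩ hx3
      have hxg : x ∈ W.gr Y (2 * c) := H914.span_gr hx1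
      set xs := proj S.iP X.dim x with hxs
      have hlow : x - xs ∈ below Q.piece X.dim := by
        rw [mem_below S.iP S.bP]
        have e2 : x ∈ below Q.piece (X.dim + 1) := hx2
        rw [mem_below S.iP S.bP] at e2
        intro q' hq'
        rw [map_sub]
        rcases hq'.eq_or_lt with rfl | hlt
        · rw [hxs, proj_same S.iP (proj_mem S.iP _ x), sub_self]
        · rw [e2 q' (by omega), hxs, proj_ne S.iP (proj_mem S.iP _ x) (by omega), sub_self]
      obtain ⟨b, hb, t, ht, hbt⟩ := Submodule.mem_sup.1 hx3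
      obtain ⟨y', hy', rfl⟩ := hb
      have h2 : (hop W f D ^ (X.dim - 2 * c)) xs = W.map f y' := by
        rw [hxs, S.pow_h_projP, ← hbt, map_add]
        have e3 : proj S.iP X.dim t = 0 := (mem_below S.iP S.bP).1 ht _ le_rfl
        rw [e3, add_zero]
        exact proj_same S.iP (map_piece Q hD hE hHL hf h1 y')
      have hy'g : y' ∈ W.gr X (2 * d) := H914.span_gr hy'
      obtain ⟨y, hy, hyy⟩ := (hHL (2 * c) (by omega)).2 y' (by
        rwa [show 2 * X.dim - 2 * c = 2 * d by omega])
      have hxsg : xs ∈ W.gr Y (2 * c) := S.projP_gr hxg _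
      have h3 : xs = W.map f y := by
        rw [← sub_eq_zero]
        refine (S.hl X.dim (2 * c) (by omega)).1 _ ⟨Submodule.sub_mem _ (proj_mem _ _ _)
          (map_piece Q hD hE hHL hf h1 y), Submodule.sub_mem _ hxsg (W.map_mem f hy)⟩ ?_
        rw [map_sub, h2, hop_pow, ← hyy, LinearMap.pow_mulLeft, LinearMap.mulLeft_apply, map_mul,
          sub_self]
      have h4 : W.push f ((eop W Y E ^ r) x) = δ • y := by
        have h5 : x = (x - xs) + W.map f y := by rw [← h3]; abel
        have h6 : (eop W Y E ^ r) (x - xs) ∈ below Q.piece (X.dim + 2 * r) :=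
          pow_e_below S hlow
        have h7 : W.push f ((eop W Y E ^ r) (x - xs)) = 0 := by
          rw [S.sumP ((eop W Y E ^ r) (x - xs)), map_sum]
          apply Finset.sum_eq_zero
          intro q _
          by_cases hq : X.dim + 2 * r ≤ q
          · rw [(mem_below S.iP S.bP).1 h6 q hq, map_zero]
          · exact push_piece Q hD hE hHL hf h1 hr (by omega) (proj_mem _ _ _)
        conv_lhs => rw [h5]
        rw [map_add, map_add, h7, zero_add, hδ']
      have h5 : y ∈ spanCycles W X c := by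
        have h6 : W.push f ((eop W Y E ^ r) x) ∈ spanCycles W X c := by
          have h7 := hA.pow_e hx1 r
          exact push_span f h7 (by omega)
        rw [h4] at h6
        have h7 := Submodule.smul_mem _ δ⁻¹ h6
        rwa [smul_smul, inv_mul_cancel₀ hδ, one_smul] at h7
      refine Submodule.mem_sup.2 ⟨xs, ?_, x - xs, hlow, by abel⟩
      rw [h3]
      exact Submodule.mem_map_of_mem h5)
  refine le_trans (le_of_eq ?_) key
  rw [← finsum_defect]
  refine finsum_congr fun c => ?_
  rw [LinearEquiv.finrank_eq (Submodule.equivMapOfInjective _ hinj (spanCycles W X c))]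

/-- The conjecture A implies that the defect vanishes. -/
lemma defect_of_A {X : 𝒱.Obj} {D : X.Cycles} (hD : X.IsCyc 1 D) (hHL : HardLefschetz W X D)
    (hA : LefschetzA W X D) : defect W X = 0 := by
  have h1 : defect W X = -defect W X := by
    conv_lhs => rw [defect, ← Finset.sum_range_reflect]
    rw [defect, ← Finset.sum_neg_distrib]
    refine Finset.sum_congr rfl fun p hp => ?_
    have hp' := Finset.mem_range.1 hp
    have h2 := rank_of_A (W := W) hD hHL hA (p := p) (q := X.dim - p) (by omega)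
    rw [show X.dim + 1 - 1 - p = X.dim - p by omega, ← h2]
    push_cast [show p ≤ X.dim by omega]
    ring
  omega

/-- The ranks of the groups of cycles increase towards the middle. -/
lemma rank_le {X : 𝒱.Obj} {D : X.Cycles} (hD : X.IsCyc 1 D) (hHL : HardLefschetz W X D) {p q : ℕ}
    (hpq : p + q = X.dim) (hle : p ≤ q) : cycleRank W X p ≤ cycleRank W X q := by
  obtain ⟨c, rfl⟩ := Nat.exists_eq_add_of_le hle
  have h1 : ∀ c : ℕ, ∀ x ∈ spanCycles W X p,
      (LinearMap.mulLeft W.K (W.cl X D) ^ c) x ∈ spanCycles W X ((p + c : ℕ) : ℤ) := by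
    intro c x hx
    induction c with
    | zero => simpa using hx
    | succ c ih =>
      rw [pow_succ', Module.End.mul_apply, LinearMap.mulLeft_apply]
      have := mul_cl hD ih
      rwa [show ((p + c : ℕ) : ℤ) + 1 = ((p + (c + 1) : ℕ) : ℤ) by push_cast; ring] at this
  have h2 := quot_le (K := W.K) (X0 := ⊥) (X1 := spanCycles W X p) (Y0 := ⊥)
    (Y1 := spanCycles W X ((p + c : ℕ) : ℤ)) bot_le bot_le
    (LinearMap.mulLeft W.K (W.cl X D) ^ c) (h1 c) (by
      intro x hx h0
      rw [Submodule.mem_bot] at h0 ⊢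
      have h1 : x ∈ W.gr X (2 * p) := H914.span_gr hx
      refine (hHL (2 * p) (by omega)).1 x h1 ?_
      rwa [show X.dim - 2 * p = c by omega])
  simp only [finrank_bot, Nat.cast_zero, sub_zero] at h2
  exact_mod_cast h2

/-- If the defect is not positive then the ranks are symmetric. -/
lemma rank_of_defect {X : 𝒱.Obj} {D : X.Cycles} (hD : X.IsCyc 1 D) (hHL : HardLefschetz W X D)
    (h0 : defect W X ≤ 0) {p q : ℕ} (hpq : p + q = X.dim) :
    cycleRank W X p = cycleRank W X q := by
  have key : ∑ p ∈ range (X.dim + 1), ((X.dim : ℤ) - 2 * p) *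
      ((cycleRank W X ((X.dim - p : ℕ) : ℤ) : ℤ) - cycleRank W X p) = 2 * defect W X := by
    have h1 : defect W X = ∑ p ∈ range (X.dim + 1), ((X.dim : ℤ) - 2 * p) *
        cycleRank W X ((X.dim - p : ℕ) : ℤ) := by
      rw [defect, ← Finset.sum_range_reflect]
      refine Finset.sum_congr rfl fun p hp => ?_
      have hp' := Finset.mem_range.1 hp
      rw [show X.dim + 1 - 1 - p = X.dim - p by omega]
      push_cast [show p ≤ X.dim by omega]
      ring
    have h2 : -defect W X = ∑ p ∈ range (X.dim + 1), ((X.dim : ℤ) - 2 * p) *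
        (cycleRank W X p : ℤ) := by
      rw [defect, ← Finset.sum_neg_distrib]
      refine Finset.sum_congr rfl fun p hp => ?_
      ring
    have h3 : ∑ p ∈ range (X.dim + 1), ((X.dim : ℤ) - 2 * p) *
        ((cycleRank W X ((X.dim - p : ℕ) : ℤ) : ℤ) - cycleRank W X p) =
        (∑ p ∈ range (X.dim + 1), ((X.dim : ℤ) - 2 * p) *
        cycleRank W X ((X.dim - p : ℕ) : ℤ)) - ∑ p ∈ range (X.dim + 1), ((X.dim : ℤ) - 2 * p) *
        (cycleRank W X p : ℤ) := by
      rw [← Finset.sum_sub_distrib]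
      refine Finset.sum_congr rfl fun p hp => ?_
      ring
    rw [h3, ← h2, ← h1]
    ring
  have hnn : ∀ p ∈ range (X.dim + 1), 0 ≤ ((X.dim : ℤ) - 2 * p) *
      ((cycleRank W X ((X.dim - p : ℕ) : ℤ) : ℤ) - cycleRank W X p) := by
    intro p hp
    have hp' := Finset.mem_range.1 hp
    by_cases hle : p ≤ X.dim - p
    · have h1 := rank_le hD hHL (p := p) (q := X.dim - p) (by omega) hle
      exact mul_nonneg (by omega) (sub_nonneg.2 (by exact_mod_cast h1))
    · have h1 := rank_le hD hHL (p := X.dim - p) (q := p) (by omega) (by omega)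
      exact mul_nonneg_of_nonpos_of_nonpos (by omega) (sub_nonpos.2 (by exact_mod_cast h1))
  have h3 : ∑ p ∈ range (X.dim + 1), ((X.dim : ℤ) - 2 * p) *
      ((cycleRank W X ((X.dim - p : ℕ) : ℤ) : ℤ) - cycleRank W X p) = 0 :=
    le_antisymm (by omega) (Finset.sum_nonneg hnn)
  have h4 := (Finset.sum_eq_zero_iff_of_nonneg hnn).1 h3 p (Finset.mem_range.2 (by omega))
  rw [show X.dim - p = q by omega] at h4
  rcases mul_eq_zero.1 h4 with h5 | h5
  · obtain rfl : p = q := by omega
    rfl
  · omega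

/-- The vanishing of the defect of `V × V` implies the conjecture B for `V`. -/
lemma lefschetzB_of_defect {V : 𝒱.Obj} {D : V.Cycles} (hD : V.IsCyc 1 D)
    (hHL : HardLefschetz W V D) (h0 : defect W (V.prod V) ≤ 0) : LefschetzB W V D := by
  rcases Nat.eq_zero_or_pos V.dim with hn | hn
  · exact lefschetzB_zero hD hHL hn
  · refine lefschetzB_of_rank hD hHL ?_
    have h1 := rank_of_defect (TH720.LB.isCyc_sumDiv hD hD) (TH125.Gal.hardLefschetz_prod hD hD hHL hHL) h0
      (p := V.dim - 1) (q := V.dim + 1) (by rw [dim_prod]; omega)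
    rw [show (V.dim : ℤ) - 1 = ((V.dim - 1 : ℕ) : ℤ) by omega,
      show (V.dim : ℤ) + 1 = ((V.dim + 1 : ℕ) : ℤ) by omega]
    exact h1

end one

section two

variable {k₀ k : Type u} [Field k₀] [Field k] {𝒱₀ : VarClass k₀} {𝒱 : VarClass k}
  {ops₀ : CycleOps 𝒱₀} {ops : CycleOps 𝒱} {φ : k₀ →+* k} {W₀ : WeilCohomology.{u, v} ops₀}
  {W : WeilCohomology.{u, v} ops}

lemma res_span {X : 𝒱.Obj} {Z S : 𝒱₀.Obj} (G : GenericFibre φ W₀ W X Z S) {c : ℤ} {x : W₀.H Z}
    (hx : x ∈ spanCycles W₀ Z c) : G.R.res x ∈ spanCycles W X c := by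
  induction hx using Submodule.span_induction with
  | mem x hx =>
    obtain ⟨p, hp, z, hz, rfl⟩ := hx
    obtain ⟨w, hw, hwz⟩ := G.R.isRestriction.res_cyc p _ ⟨z, hz, rfl⟩
    exact Submodule.subset_span ⟨p, hp, w, hw, hwz⟩
  | zero => rw [map_zero]; exact Submodule.zero_mem _
  | add x y _ _ hx hy => rw [map_add]; exact Submodule.add_mem _ hx hy
  | smul a x _ hx => rw [G.R.isRestriction.res_smul]; exact Submodule.smul_mem _ _ hx

/-- The restrictions of the elements of a subspace. -/
def resSub {X : 𝒱.Obj} {Z S : 𝒱₀.Obj} (G : GenericFibre φ W₀ W X Z S)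
    (A : Submodule W₀.K (W₀.H Z)) : Submodule W.K (W.H X) where
  carrier := {y | ∃ x ∈ A, G.R.res x = y}
  add_mem' := by
    rintro _ _ ⟨x, hx, rfl⟩ ⟨y, hy, rfl⟩
    exact ⟨x + y, A.add_mem hx hy, map_add _ _ _⟩
  zero_mem' := ⟨0, A.zero_mem, map_zero _⟩
  smul_mem' := by
    rintro a _ ⟨x, hx, rfl⟩
    refine ⟨G.R.σ.symm a • x, A.smul_mem _ hx, ?_⟩
    rw [G.R.isRestriction.res_smul, RingEquiv.apply_symm_apply]

lemma span_le_res {X : 𝒱.Obj} {Z S : 𝒱₀.Obj} (G : GenericFibre φ W₀ W X Z S) (c : ℤ) :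
    spanCycles W X c ≤ resSub G (spanCycles W₀ Z c) := by
  refine Submodule.span_le.2 ?_
  rintro _ ⟨p, hp, w, hw, rfl⟩
  refine (Submodule.span_le.2 ?_) (G.R.isRestriction.cyc_mem p _ ⟨w, hw, rfl⟩)
  rintro _ ⟨_, ⟨z, hz, rfl⟩, rfl⟩
  exact ⟨_, Submodule.subset_span ⟨p, hp, z, hz, rfl⟩, rfl⟩

/-- The defect of the generic fibre is at most the defect of the total space. -/
theorem defect_fibre {X : 𝒱.Obj} {Z S : 𝒱₀.Obj} (G : GenericFibre φ W₀ W X Z S) :
    defect W X ≤ defect W₀ Z := by
  have St := setup G.perverse G.isCyc_D G.isCyc_E rfl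
  have hA := stable (W := W₀) G.f G.isCyc_D G.isCyc_E
  have key := fibre_le St hA (s := S.dim) (hop_pow_zero G.f G.isCyc_D)
  refine le_trans (le_of_eq ?_) key
  rw [← finsum_defect]
  refine finsum_congr fun c => ?_
  rw [finrank_semi G.R.σ G.R.res.toAddMonoidHom G.R.isRestriction.res_smul (A := spanCycles W₀ Z c)
    (N := LinearMap.ker (hop W₀ G.f G.D ^ S.dim)) (B := spanCycles W X c) ?_
    (fun x hx => res_span G hx) (fun y hy => span_le_res G c hy)]
  · rw [show (X.dim : ℤ) = (Z.dim : ℤ) - S.dim by have := G.fibre.dim; omega]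
  · intro x
    rw [LinearMap.mem_ker, hop_pow]
    exact (G.R.isRestriction.res_eq_zero x).symm

/-- The defect of a variety dominated by a geometric generic fibre. -/
theorem defect_spread {V : 𝒱.Obj} {Z : 𝒱₀.Obj} (P : Spread φ W₀ W V Z) :
    defect W V ≤ defect W₀ Z :=
  (defect_image P.perverse P.isCyc_D P.isCyc_E P.hard P.dominant).trans (defect_fibre P.fibre)

/-- **From the conjecture A for a variety over the small field to the conjecture B.** -/
theorem lefschetzB_of_spread {V : 𝒱.Obj} {Z : 𝒱₀.Obj} (P : Spread φ W₀ W (V.prod V) Z)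
    {D : V.Cycles} (hD : V.IsCyc 1 D) (hHL : HardLefschetz W V D) {E : Z.Cycles}
    (hE : Z.IsCyc 1 E) (hHLE : HardLefschetz W₀ Z E) (hA : LefschetzA W₀ Z E) :
    LefschetzB W V D :=
  lefschetzB_of_defect hD hHL ((defect_spread P).trans (defect_of_A hE hHLE hA).le)

end two

end Pool.Agent.V5helper84.Mono
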