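import Mathlib

/-!
# Sums over pairs of integers with two reflections
-/

set_option autoImplicit false

namespace Pool.Agent.V5helper84.Mono

open Finset

/-- The reflection `(p, c) ↦ (p, p - c)`. -/
def refA : ℤ × ℤ ≃ ℤ × ℤ where
  toFun x := (x.1, x.1 - x.2)
  invFun x := (x.1, x.1 - x.2)
  left_inv x := by ext <;> simp
  right_inv x := by ext <;> simp

/-- The reflection `(p, c) ↦ (2 n - p, c + n - p)`. -/
def refB (n : ℤ) : ℤ × ℤ ≃ ℤ × ℤ where
  toFun x := (2 * n - x.1, x.2 + n - x.1)
  invFun x := (2 * n - x.1, x.2 + n - x.1)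
  left_inv x := by
    ext
    · simp
    · change x.2 + n - x.1 + n - (2 * n - x.1) = x.2
      ring
  right_inv x := by
    ext
    · simp
    · change x.2 + n - x.1 + n - (2 * n - x.1) = x.2
      ring

/-- A sum with a weight which changes its sign under a reflection is not negative if the values
increase with the weight. -/
lemma reflect_nonneg (σ : ℤ × ℤ ≃ ℤ × ℤ) (hσ : ∀ x, σ (σ x) = x) (w g : ℤ × ℤ → ℤ)
    (hw : ∀ x, w (σ x) = -w x) (hg : ∀ x, w x ≤ 0 → g x ≤ g (σ x))
    (hfin : (Function.support g).Finite) : 0 ≤ ∑ᶠ x, w x * g x := by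
  have hfin2 : (Function.support fun x => g (σ x)).Finite := by
    have : (Function.support fun x => g (σ x)) = σ ⁻¹' (Function.support g) := rfl
    rw [this]
    exact hfin.preimage σ.injective.injOn
  have h1 : ∑ᶠ x, w x * g x = ∑ᶠ x, -(w x * g (σ x)) := by
    have h2 : ∑ᶠ x, w (σ x) * g (σ x) = ∑ᶠ x, w x * g x :=
      finsum_comp_equiv (f := fun x => w x * g x) σ
    rw [← h2]
    refine finsum_congr fun x => ?_
    rw [hw]; ring
  have f1 : (Function.support fun x => w x * g x).Finite :=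
    hfin.subset (fun x hx h0 => hx (by simp [h0]))
  have f2 : (Function.support fun x => -(w x * g (σ x))).Finite :=
    hfin2.subset (fun x hx h0 => hx (by
      have : g (σ x) = 0 := h0
      simp [this]))
  have h3 : 2 * ∑ᶠ x, w x * g x = ∑ᶠ x, w x * (g x - g (σ x)) := by
    rw [two_mul]
    nth_rewrite 2 [h1]
    rw [← finsum_add_distrib f1 f2]
    refine finsum_congr fun x => ?_
    ring
  have h4 : 0 ≤ ∑ᶠ x, w x * (g x - g (σ x)) := by
    refine finsum_nonneg fun x => ?_
    rcases le_total (w x) 0 with h | h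
    · exact mul_nonneg_of_nonpos_of_nonpos h (by linarith [hg x h])
    · refine mul_nonneg h ?_
      have h5 := hg (σ x) (by rw [hw]; linarith)
      rw [hσ] at h5
      linarith
  linarith

/-- The main inequality: `g` is a function with finite support on the pairs `(p, c)` with
`g (p, c) ≤ g (p, p - c)` for `2 c ≤ p` and `g (p, c) ≤ g (2 n - p, c + n - p)` for `p ≤ n`. The
sum of `(2 c - n) g (p, c)` over all pairs is at least the sum of `(2 c - (n - s)) g (2 c + s, c)`
over all `c`. -/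
lemma sum_ge_fibre (g : ℤ × ℤ → ℤ) (n s : ℤ) (hfin : (Function.support g).Finite)
    (hA : ∀ x, 2 * x.2 - x.1 ≤ 0 → g x ≤ g (refA x))
    (hB : ∀ x, x.1 - n ≤ 0 → g x ≤ g (refB n x)) :
    ∑ᶠ c : ℤ, (2 * c - (n - s)) * g (2 * c + s, c) ≤ ∑ᶠ x : ℤ × ℤ, (2 * x.2 - n) * g x := by
  classical
  have f1 : (Function.support fun x : ℤ × ℤ => (2 * x.2 - x.1) * g x).Finite :=
    hfin.subset (fun x hx h0 => hx (by
      have : g x = 0 := h0
      simp [this]))
  have f2 : (Function.support fun x : ℤ × ℤ => (x.1 - n) * g x).Finite :=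
    hfin.subset (fun x hx h0 => hx (by
      have : g x = 0 := h0
      simp [this]))
  have h1 : ∑ᶠ x : ℤ × ℤ, (2 * x.2 - n) * g x =
      (∑ᶠ x : ℤ × ℤ, (2 * x.2 - x.1) * g x) + ∑ᶠ x : ℤ × ℤ, (x.1 - n) * g x := by
    rw [← finsum_add_distrib f1 f2]
    refine finsum_congr fun x => ?_
    ring
  have h2 : 0 ≤ ∑ᶠ x : ℤ × ℤ, (2 * x.2 - x.1) * g x := by
    refine reflect_nonneg refA (fun x => refA.left_inv x) (fun x => 2 * x.2 - x.1) g ?_ hA hfin
    intro x
    change 2 * (x.1 - x.2) - x.1 = _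
    ring
  -- the part on the line `2 c - p = - s`
  set gl : ℤ × ℤ → ℤ := fun x => if 2 * x.2 - x.1 = -s then g x else 0 with hgl
  set go : ℤ × ℤ → ℤ := fun x => if 2 * x.2 - x.1 = -s then 0 else g x with hgo
  have f3 : (Function.support fun x : ℤ × ℤ => (x.1 - n) * gl x).Finite :=
    hfin.subset (fun x hx h0 => hx (by
      have : g x = 0 := h0
      simp [hgl, this]))
  have f4 : (Function.support fun x : ℤ × ℤ => (x.1 - n) * go x).Finite :=
    hfin.subset (fun x hx h0 => hx (by
      have : g x = 0 := h0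
      simp [hgo, this]))
  have h3 : ∑ᶠ x : ℤ × ℤ, (x.1 - n) * g x =
      (∑ᶠ x : ℤ × ℤ, (x.1 - n) * gl x) + ∑ᶠ x : ℤ × ℤ, (x.1 - n) * go x := by
    rw [← finsum_add_distrib f3 f4]
    refine finsum_congr fun x => ?_
    simp only [hgl, hgo]
    split_ifs <;> ring
  have h4 : 0 ≤ ∑ᶠ x : ℤ × ℤ, (x.1 - n) * go x := by
    refine reflect_nonneg (refB n) (fun x => (refB n).left_inv x) (fun x => x.1 - n) go ?_ ?_ ?_
    · intro x
      change 2 * n - x.1 - n = _
      ring
    · intro x hx
      have h5 : 2 * (refB n x).2 - (refB n x).1 = 2 * x.2 - x.1 := by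
        change 2 * (x.2 + n - x.1) - (2 * n - x.1) = _
        ring
      simp only [hgo, h5]
      split_ifs
      · exact le_rfl
      · exact hB x hx
    · exact hfin.subset (fun x hx h0 => hx (by
        have : g x = 0 := h0
        simp [hgo, this]))
  have h5 : ∑ᶠ x : ℤ × ℤ, (x.1 - n) * gl x = ∑ᶠ c : ℤ, (2 * c - (n - s)) * g (2 * c + s, c) := by
    have h6 : Function.Injective (fun c : ℤ => ((2 * c + s, c) : ℤ × ℤ)) := by
      intro c c' h
      exact (Prod.mk.inj h).2
    have h7 : ∑ᶠ c : ℤ, (2 * c - (n - s)) * g (2 * c + s, c) =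
        ∑ᶠ c : ℤ, (fun x : ℤ × ℤ => (x.1 - n) * gl x) (2 * c + s, c) := by
      refine finsum_congr fun c => ?_
      have h8 : 2 * c - (2 * c + s) = -s := by ring
      simp only [hgl, h8, if_true]
      ring
    rw [h7, ← finsum_mem_range (f := fun x : ℤ × ℤ => (x.1 - n) * gl x) h6, finsum_mem_def]
    refine finsum_congr fun x => ?_
    rw [Set.indicator_apply]
    split_ifs with hx
    · rfl
    have h9 : ¬ (2 * x.2 - x.1 = -s) := by
      intro h0
      apply hx
      refine ⟨x.2, ?_⟩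
      ext
      · change 2 * x.2 + s = x.1
        linarith
      · rfl
    simp [hgl, h9]
  rw [h1, h3, h5]
  linarith

/-- The second inequality: if moreover `r` is a function on the integers with finite support such
that `g (s, c) - r c ≤ g (s, s - c) - r (s - c)` for `2 c ≤ s`, then the sum of `(2 c - n) g (p, c)`
over all pairs is at least the sum of `(2 c - s) r c` over all `c`. -/
lemma sum_ge_image (g : ℤ × ℤ → ℤ) (r : ℤ → ℤ) (n s : ℤ) (hfin : (Function.support g).Finite)
    (hr : (Function.support r).Finite)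
    (hA : ∀ x, 2 * x.2 - x.1 ≤ 0 → g x ≤ g (refA x))
    (hB : ∀ x, x.1 - n ≤ 0 → g x ≤ g (refB n x))
    (hR : ∀ c, 2 * c - s ≤ 0 → g (s, c) - r c ≤ g (s, s - c) - r (s - c)) :
    ∑ᶠ c : ℤ, (2 * c - s) * r c ≤ ∑ᶠ x : ℤ × ℤ, (2 * x.2 - n) * g x := by
  classical
  have f1 : (Function.support fun x : ℤ × ℤ => (2 * x.2 - x.1) * g x).Finite :=
    hfin.subset (fun x hx h0 => hx (by
      have : g x = 0 := h0
      simp [this]))
  have f2 : (Function.support fun x : ℤ × ℤ => (x.1 - n) * g x).Finite :=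
    hfin.subset (fun x hx h0 => hx (by
      have : g x = 0 := h0
      simp [this]))
  have h1 : ∑ᶠ x : ℤ × ℤ, (2 * x.2 - n) * g x =
      (∑ᶠ x : ℤ × ℤ, (2 * x.2 - x.1) * g x) + ∑ᶠ x : ℤ × ℤ, (x.1 - n) * g x := by
    rw [← finsum_add_distrib f1 f2]
    refine finsum_congr fun x => ?_
    ring
  have h2 : 0 ≤ ∑ᶠ x : ℤ × ℤ, (x.1 - n) * g x := by
    refine reflect_nonneg (refB n) (fun x => (refB n).left_inv x) (fun x => x.1 - n) g ?_ hB hfin
    intro x
    change 2 * n - x.1 - n = _
    ring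
  set rr : ℤ × ℤ → ℤ := fun x => if x.1 = s then r x.2 else 0 with hrr
  have hrrfin : (Function.support rr).Finite := by
    refine (hr.image (fun c => ((s, c) : ℤ × ℤ))).subset ?_
    intro x hx
    have h3 : x.1 = s := by
      by_contra h
      exact hx (by simp [hrr, h])
    refine ⟨x.2, ?_, ?_⟩
    · intro h0
      exact hx (by simp [hrr, h3, h0])
    · ext
      · exact h3.symm
      · rfl
  have f3 : (Function.support fun x : ℤ × ℤ => (2 * x.2 - x.1) * rr x).Finite :=
    hrrfin.subset (fun x hx h0 => hx (by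
      have : rr x = 0 := h0
      simp [this]))
  set g' : ℤ × ℤ → ℤ := fun x => g x - rr x with hg'
  have hg'fin : (Function.support g').Finite :=
    (hfin.union hrrfin).subset (fun x hx => by
      by_contra h
      rw [Set.mem_union, not_or] at h
      have h3 : g x = 0 := by simpa using h.1
      have h4 : rr x = 0 := by simpa using h.2
      exact hx (by simp [hg', h3, h4]))
  have f4 : (Function.support fun x : ℤ × ℤ => (2 * x.2 - x.1) * g' x).Finite :=
    hg'fin.subset (fun x hx h0 => hx (by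
      have : g' x = 0 := h0
      simp [this]))
  have h3 : 0 ≤ ∑ᶠ x : ℤ × ℤ, (2 * x.2 - x.1) * g' x := by
    refine reflect_nonneg refA (fun x => refA.left_inv x) (fun x => 2 * x.2 - x.1) g' ?_ ?_ hg'fin
    · intro x
      change 2 * (x.1 - x.2) - x.1 = _
      ring
    · rintro ⟨p, c⟩ hx
      change 2 * c - p ≤ 0 at hx
      change g (p, c) - rr (p, c) ≤ g (p, p - c) - rr (p, p - c)
      by_cases hp : p = s
      · subst hp
        simp only [hrr, if_true]
        exact hR c hx
      · simp only [hrr, hp, if_false, sub_zero]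
        exact hA (p, c) hx
  have h4 : ∑ᶠ x : ℤ × ℤ, (2 * x.2 - x.1) * g x =
      (∑ᶠ x : ℤ × ℤ, (2 * x.2 - x.1) * g' x) + ∑ᶠ x : ℤ × ℤ, (2 * x.2 - x.1) * rr x := by
    rw [← finsum_add_distrib f4 f3]
    refine finsum_congr fun x => ?_
    simp only [hg']
    ring
  have h5 : ∑ᶠ x : ℤ × ℤ, (2 * x.2 - x.1) * rr x = ∑ᶠ c : ℤ, (2 * c - s) * r c := by
    have h6 : Function.Injective (fun c : ℤ => ((s, c) : ℤ × ℤ)) := by
      intro c c' h
      exact (Prod.mk.inj h).2
    have h7 : ∑ᶠ c : ℤ, (2 * c - s) * r c =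
        ∑ᶠ c : ℤ, (fun x : ℤ × ℤ => (2 * x.2 - x.1) * rr x) (s, c) := by
      refine finsum_congr fun c => ?_
      simp only [hrr, if_true]
    rw [h7, ← finsum_mem_range (f := fun x : ℤ × ℤ => (2 * x.2 - x.1) * rr x) h6, finsum_mem_def]
    refine finsum_congr fun x => ?_
    rw [Set.indicator_apply]
    split_ifs with hx
    · rfl
    have h9 : ¬ (x.1 = s) := by
      intro h0
      apply hx
      refine ⟨x.2, ?_⟩
      ext
      · exact h0.symm
      · rfl
    simp [hrr, h9]
  rw [h1, h4, h5]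
  linarith

end Pool.Agent.V5helper84.Mono
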