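import Pool.Agent.W498.Dom.Main
import Pool.Agent.V5helper84.Mono.Sum

/-!
# Subspaces stable under two Lefschetz operators and the perverse filtration
-/

set_option autoImplicit false
set_option linter.unusedSectionVars false

open Finset

namespace Pool.Agent.V5helper84.Mono

open Pool.Agent.H914 Pool.Agent.H447 Pool.Agent.W498.Dom

section quot

variable {K : Type*} [Field K] {V U : Type*} [AddCommGroup V] [Module K V] [AddCommGroup U]
  [Module K U] [Module.Finite K V] [Module.Finite K U]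

/-- Comparison of the dimensions of two quotients. -/
lemma quot_le {X0 X1 : Submodule K V} {Y0 Y1 : Submodule K U} (hX : X0 ≤ X1) (hY : Y0 ≤ Y1)
    (T : V →ₗ[K] U) (hT : ∀ x ∈ X1, T x ∈ Y1) (hi : ∀ x ∈ X1, T x ∈ Y0 → x ∈ X0) :
    (Module.finrank K X1 : ℤ) - Module.finrank K X0 ≤
      Module.finrank K Y1 - Module.finrank K Y0 := by
  set T1 : X1 →ₗ[K] Y1 := T.restrict hT with hT1
  set φ : X1 →ₗ[K] (Y1 ⧸ Y0.submoduleOf Y1) := (Y0.submoduleOf Y1).mkQ ∘ₗ T1 with hφ
  have h1 := LinearMap.finrank_range_add_finrank_ker φ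
  have h2 : Module.finrank K (LinearMap.range φ) ≤ Module.finrank K (Y1 ⧸ Y0.submoduleOf Y1) :=
    Submodule.finrank_le _
  have h3 := Submodule.finrank_quotient_add_finrank (Y0.submoduleOf Y1)
  have h4 : Module.finrank K (Y0.submoduleOf Y1) = Module.finrank K Y0 :=
    LinearEquiv.finrank_eq (Submodule.submoduleOfEquivOfLe hY)
  have h5 : Module.finrank K (X0.submoduleOf X1) = Module.finrank K X0 :=
    LinearEquiv.finrank_eq (Submodule.submoduleOfEquivOfLe hX)
  have h6 : LinearMap.ker φ ≤ X0.submoduleOf X1 := by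
    intro x hx
    rw [LinearMap.mem_ker, hφ, LinearMap.comp_apply, Submodule.mkQ_apply,
      Submodule.Quotient.mk_eq_zero] at hx
    exact hi x.1 x.2 hx
  have h7 := Submodule.finrank_mono h6
  omega

end quot

variable {K : Type*} [Field K] [CharZero K] {V : Type*} [AddCommGroup V] [Module K V]
  [Module.Finite K V]

lemma below_mono {P : ℕ → Submodule K V} {a b : ℕ} (hab : a ≤ b) : below P a ≤ below P b := by
  refine iSup_mono fun q => iSup_le fun hq => ?_
  exact le_iSup (fun _ : q < b => P q) (by omega)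

lemma below_zero {P : ℕ → Submodule K V} : below P 0 = ⊥ := by
  rw [eq_bot_iff]
  refine iSup_le fun q => iSup_le fun hq => ?_
  omega

/-- The dimensions of the graded pieces of the filtration induced on the subspaces `A c`. -/
noncomputable def gd (P : ℕ → Submodule K V) (A : ℤ → Submodule K V) (x : ℤ × ℤ) : ℤ :=
  (Module.finrank K (A x.2 ⊓ below P (x.1 + 1).toNat : Submodule K V) : ℤ) -
    Module.finrank K (A x.2 ⊓ below P x.1.toNat : Submodule K V)

lemma gd_nonneg (P : ℕ → Submodule K V) (A : ℤ → Submodule K V) (x : ℤ × ℤ) : 0 ≤ gd P A x := by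
  rw [gd, sub_nonneg]
  exact_mod_cast Submodule.finrank_mono (inf_le_inf_left _ (below_mono (by omega)))

lemma gd_neg (P : ℕ → Submodule K V) (A : ℤ → Submodule K V) {p c : ℤ} (hp : p < 0) :
    gd P A (p, c) = 0 := by
  simp only [gd]
  rw [show (p + 1).toNat = 0 by omega, show p.toNat = 0 by omega, sub_self]

lemma gd_bot (P : ℕ → Submodule K V) (A : ℤ → Submodule K V) {p c : ℤ} (hc : A c = ⊥) :
    gd P A (p, c) = 0 := by
  simp only [gd]
  rw [hc, bot_inf_eq, bot_inf_eq, sub_self]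

/-- The subspaces `A c` of degree `2 c` are stable under `h` and `e`. -/
structure Stable (gr : ℕ → Submodule K V) (h e : Module.End K V) (A : ℤ → Submodule K V) :
    Prop where
  deg : ∀ c, A c ≤ grZ gr (2 * c)
  h : ∀ c, ∀ x ∈ A c, h x ∈ A (c + 1)
  e : ∀ c, ∀ x ∈ A c, e x ∈ A (c + 1)

variable {gr P : ℕ → Submodule K V} {m : ℕ} {h e : Module.End K V} {A : ℤ → Submodule K V}

namespace Stable

lemma pow_h (hA : Stable gr h e A) {c : ℤ} {x : V} (hx : x ∈ A c) (r : ℕ) :
    (h ^ r) x ∈ A (c + r) := by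
  induction r with
  | zero => simpa using hx
  | succ r ih =>
    rw [pow_succ', Module.End.mul_apply]
    have := hA.h _ _ ih
    rwa [show c + (r : ℤ) + 1 = c + ((r + 1 : ℕ) : ℤ) by push_cast; ring] at this

lemma pow_e (hA : Stable gr h e A) {c : ℤ} {x : V} (hx : x ∈ A c) (r : ℕ) :
    (e ^ r) x ∈ A (c + r) := by
  induction r with
  | zero => simpa using hx
  | succ r ih =>
    rw [pow_succ', Module.End.mul_apply]
    have := hA.e _ _ ih
    rwa [show c + (r : ℤ) + 1 = c + ((r + 1 : ℕ) : ℤ) by push_cast; ring] at this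

lemma bot_of_neg (hA : Stable gr h e A) {c : ℤ} (hc : c < 0) : A c = ⊥ := by
  rw [eq_bot_iff, ← grZ_of_neg (gr := gr) (show 2 * c < 0 by omega)]
  exact hA.deg c

end Stable

section

variable (S : Setup gr P m h e)

include S

lemma below_top {a : ℕ} (ha : 2 * m + 1 ≤ a) : below P a = ⊤ := by
  rw [eq_top_iff]
  intro v _
  rw [mem_below S.iP S.bP]
  intro q hq
  have := proj_mem S.iP q v
  rw [S.bP q (by omega)] at this
  exact (Submodule.mem_bot _).1 this

lemma pow_h_below {a r : ℕ} {x : V} (hx : x ∈ below P a) : (h ^ r) x ∈ below P a := by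
  rw [mem_below S.iP S.bP] at hx ⊢
  intro q hq
  rw [← S.pow_h_projP, hx q hq, map_zero]

lemma pow_e_below {a r : ℕ} {x : V} (hx : x ∈ below P a) : (e ^ r) x ∈ below P (a + 2 * r) := by
  rcases Nat.eq_zero_or_pos a with rfl | ha
  · rw [below_zero, Submodule.mem_bot] at hx
    rw [hx, map_zero]
    exact Submodule.zero_mem _
  · rw [mem_below S.iP S.bP] at hx ⊢
    intro q hq
    exact S.e_pow_level (a := a - 1) (fun q' hq' => hx q' (by omega)) q (by omega)

lemma bot_of_gt (hA : Stable gr h e A) {c : ℤ} (hc : (m : ℤ) < c) : A c = ⊥ := by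
  rw [eq_bot_iff]
  refine (hA.deg c).trans ?_
  obtain ⟨d, rfl⟩ := Int.eq_ofNat_of_zero_le (show 0 ≤ c by omega)
  rw [show 2 * (d : ℤ) = ((2 * d : ℕ) : ℤ) by push_cast; ring, grZ_natCast, S.bgr _ (by omega)]

lemma gd_support (hA : Stable gr h e A) : (Function.support (gd P A)).Finite := by
  refine ((Set.finite_Icc (0 : ℤ) (2 * m)).prod (Set.finite_Icc (0 : ℤ) m)).subset ?_
  rintro ⟨p, c⟩ hx
  rw [Function.mem_support] at hx
  refine ⟨⟨?_, ?_⟩, ⟨?_, ?_⟩⟩
  · by_contra h0
    exact hx (gd_neg P A (by simpa using h0))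
  · by_contra h0
    apply hx
    simp only [not_le] at h0
    simp only [gd]
    rw [below_top S (by omega), below_top S (by omega), sub_self]
  · by_contra h0
    exact hx (gd_bot P A (hA.bot_of_neg (by simpa using h0)))
  · by_contra h0
    exact hx (gd_bot P A (bot_of_gt S hA (by simpa using h0)))

/-- Hard Lefschetz on the pieces. -/
lemma gd_refA (hA : Stable gr h e A) (x : ℤ × ℤ) (hx : 2 * x.2 - x.1 ≤ 0) :
    gd P A x ≤ gd P A (refA x) := by
  obtain ⟨p, c⟩ := x
  change 2 * c - p ≤ 0 at hx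
  change gd P A (p, c) ≤ gd P A (p, p - c)
  by_cases hc : c < 0
  · rw [gd_bot P A (hA.bot_of_neg hc)]
    exact gd_nonneg P A _
  obtain ⟨d, rfl⟩ := Int.eq_ofNat_of_zero_le (show 0 ≤ c by omega)
  obtain ⟨q, rfl⟩ := Int.eq_ofNat_of_zero_le (show 0 ≤ p by omega)
  simp only [gd]
  rw [show ((q : ℤ) + 1).toNat = q + 1 by omega, show (q : ℤ).toNat = q by omega]
  refine quot_le (inf_le_inf_left _ (below_mono (by omega)))
    (inf_le_inf_left _ (below_mono (by omega))) (h ^ (q - 2 * d)) ?_ ?_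
  · rintro x ⟨hx1, hx2⟩
    refine ⟨?_, pow_h_below S hx2⟩
    have := hA.pow_h hx1 (q - 2 * d)
    rwa [show (d : ℤ) + ((q - 2 * d : ℕ) : ℤ) = q - d by omega] at this
  · rintro x ⟨hx1, hx2⟩ ⟨-, hx3⟩
    refine ⟨hx1, ?_⟩
    have hxg : x ∈ gr (2 * d) := by
      have := hA.deg _ hx1
      rwa [show 2 * (d : ℤ) = ((2 * d : ℕ) : ℤ) by push_cast; ring, grZ_natCast] at this
    have e2 : x ∈ below P (q + 1) := hx2
    have e3 : (h ^ (q - 2 * d)) x ∈ below P q := hx3
    change x ∈ below P q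
    rw [mem_below S.iP S.bP] at e2 e3 ⊢
    intro q' hq'
    rcases hq'.eq_or_lt with rfl | hlt
    · refine (S.hl q (2 * d) (by omega)).1 _ ⟨proj_mem _ _ _, S.projP_gr hxg q⟩ ?_
      rw [S.pow_h_projP]
      exact e3 q le_rfl
    · exact e2 q' (by omega)

/-- Relative hard Lefschetz. -/
lemma gd_refB (hA : Stable gr h e A) (x : ℤ × ℤ) (hx : x.1 - m ≤ 0) :
    gd P A x ≤ gd P A (refB m x) := by
  obtain ⟨p, c⟩ := x
  change p - m ≤ 0 at hx
  change gd P A (p, c) ≤ gd P A (2 * m - p, c + m - p)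
  by_cases hp : p < 0
  · rw [gd_neg P A hp]
    exact gd_nonneg P A _
  obtain ⟨q, rfl⟩ := Int.eq_ofNat_of_zero_le (show 0 ≤ p by omega)
  simp only [gd]
  rw [show ((q : ℤ) + 1).toNat = q + 1 by omega, show (q : ℤ).toNat = q by omega,
    show (2 * (m : ℤ) - q + 1).toNat = 2 * m - q + 1 by omega,
    show (2 * (m : ℤ) - q).toNat = 2 * m - q by omega]
  refine quot_le (inf_le_inf_left _ (below_mono (by omega)))
    (inf_le_inf_left _ (below_mono (by omega))) (e ^ (m - q)) ?_ ?_
  · rintro x ⟨hx1, hx2⟩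
    refine ⟨?_, ?_⟩
    · have := hA.pow_e hx1 (m - q)
      rwa [show c + ((m - q : ℕ) : ℤ) = c + m - q by omega] at this
    · have := pow_e_below S (r := m - q) hx2
      rwa [show q + 1 + 2 * (m - q) = 2 * m - q + 1 by omega] at this
  · rintro x ⟨hx1, hx2⟩ ⟨-, hx3⟩
    refine ⟨hx1, ?_⟩
    have e2 : x ∈ below P (q + 1) := hx2
    have e3 : (e ^ (m - q)) x ∈ below P (2 * m - q) := hx3
    rw [mem_below S.iP S.bP] at e2
    have e4 : x - proj S.iP q x ∈ below P q := by
      rw [mem_below S.iP S.bP]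
      intro q' hq'
      rw [map_sub]
      rcases hq'.eq_or_lt with rfl | hlt
      · rw [proj_same S.iP (proj_mem S.iP q x), sub_self]
      · rw [e2 q' (by omega), proj_ne S.iP (proj_mem S.iP q x) (by omega), sub_self]
    have e5 : (e ^ (m - q)) (x - proj S.iP q x) ∈ below P (2 * m - q) := by
      have := pow_e_below S (r := m - q) e4
      rwa [show q + 2 * (m - q) = 2 * m - q by omega] at this
    have e6 : (e ^ (m - q)) (proj S.iP q x) ∈ below P (2 * m - q) := by
      have := Submodule.sub_mem _ e3 e5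
      rwa [map_sub, sub_sub_cancel] at this
    have e7 : proj S.iP q x = 0 := by
      refine (S.rl q (by omega)).1 _ (proj_mem S.iP q x) ?_
      rw [top_pow' S.iP S.bP S.eP (proj_mem S.iP q x),
        show q + 2 * (m - q) = 2 * m - q by omega]
      exact (mem_below S.iP S.bP).1 e6 _ le_rfl
    rw [e7, sub_zero] at e4
    exact e4

/-- The sum over a column. -/
lemma gd_column (c : ℤ) : ∑ᶠ p : ℤ, gd P A (p, c) = Module.finrank K (A c) := by
  rw [finsum_eq_sum_of_support_subset (s := (range (2 * m + 1)).map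
    ⟨fun n : ℕ => (n : ℤ), Nat.cast_injective⟩)]
  · rw [Finset.sum_map]
    simp only [Function.Embedding.coeFn_mk]
    set F : ℕ → ℤ := fun n => (Module.finrank K (A c ⊓ below P n : Submodule K V) : ℤ) with hF
    have h1 : ∀ n : ℕ, gd P A ((n : ℤ), c) = F (n + 1) - F n := by
      intro n
      simp only [gd, hF]
      rw [show ((n : ℤ) + 1).toNat = n + 1 by omega, show (n : ℤ).toNat = n by omega]
    rw [Finset.sum_congr rfl (fun n _ => h1 n), Finset.sum_range_sub]
    simp only [hF]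
    rw [below_top S le_rfl, below_zero, inf_top_eq, inf_bot_eq, finrank_bot, Nat.cast_zero,
      sub_zero]
  · intro p hp
    rw [Function.mem_support] at hp
    rw [Finset.coe_map, Set.mem_image]
    have h1 : 0 ≤ p := by
      by_contra h0
      exact hp (gd_neg P A (by omega))
    obtain ⟨q, rfl⟩ := Int.eq_ofNat_of_zero_le h1
    refine ⟨q, ?_, rfl⟩
    rw [Finset.coe_range, Set.mem_Iio]
    by_contra h0
    apply hp
    simp only [gd]
    rw [below_top S (by omega), below_top S (by omega), sub_self]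

/-- The defect of the subspaces. -/
lemma total (hA : Stable gr h e A) : ∑ᶠ x : ℤ × ℤ, (2 * x.2 - m) * gd P A x =
    ∑ c ∈ range (m + 1), (2 * (c : ℤ) - m) * Module.finrank K (A c) := by
  have hfin := gd_support S hA
  have h1 : ∑ᶠ x : ℤ × ℤ, (2 * x.2 - m) * gd P A x =
      ∑ᶠ x : ℤ × ℤ, (fun x : ℤ × ℤ => (2 * x.1 - m) * gd P A (x.2, x.1)) x := by
    rw [← finsum_comp_equiv (f := fun x : ℤ × ℤ => (2 * x.2 - m) * gd P A x)
      (Equiv.prodComm ℤ ℤ)]
    rfl
  have h2 : (Function.support (fun x : ℤ × ℤ => (2 * x.1 - m) * gd P A (x.2, x.1))).Finite := by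
    have h3 : (Function.support (fun x : ℤ × ℤ => (2 * x.1 - m) * gd P A (x.2, x.1))) ⊆
        (Equiv.prodComm ℤ ℤ) ⁻¹' (Function.support (gd P A)) := by
      intro x hx h0
      apply hx
      have h4 : gd P A (x.2, x.1) = 0 := h0
      simp [h4]
    exact (hfin.preimage (Equiv.prodComm ℤ ℤ).injective.injOn).subset h3
  rw [h1, finsum_curry _ h2]
  simp only
  have h3 : ∀ c : ℤ, ∑ᶠ p : ℤ, (2 * c - m) * gd P A (p, c) =
      (2 * c - m) * Module.finrank K (A c) := by
    intro c
    rw [← mul_finsum, gd_column S]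
  rw [finsum_congr h3, finsum_eq_sum_of_support_subset (s := (range (m + 1)).map
    ⟨fun n : ℕ => (n : ℤ), Nat.cast_injective⟩)]
  · rw [Finset.sum_map]
    rfl
  · intro c hc
    rw [Function.mem_support] at hc
    rw [Finset.coe_map, Set.mem_image]
    have h1 : 0 ≤ c := by
      by_contra h0
      apply hc
      rw [hA.bot_of_neg (by omega), finrank_bot, Nat.cast_zero, mul_zero]
    obtain ⟨q, rfl⟩ := Int.eq_ofNat_of_zero_le h1
    refine ⟨q, ?_, rfl⟩
    rw [Finset.coe_range, Set.mem_Iio]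
    by_contra h0
    apply hc
    rw [bot_of_gt S hA (by omega), finrank_bot, Nat.cast_zero, mul_zero]

/-- The pieces vanish far from the diagonal. -/
lemma piece_bot {s : ℕ} (hs : h ^ (s + 1) = 0) {p j : ℕ} (hj : p + s < j ∨ j + s < p) :
    P p ⊓ gr j = ⊥ := by
  have key : ∀ i, i + s < p → ∀ v ∈ P p ⊓ gr i, v = 0 := by
    intro i hi v hv
    refine (S.hl p i (by omega)).1 v hv ?_
    rw [show p - i = (p - i - (s + 1)) + (s + 1) by omega, pow_add, hs, mul_zero,
      LinearMap.zero_apply]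
  rw [eq_bot_iff]
  intro v hv
  rw [Submodule.mem_bot]
  rcases hj with hj | hj
  · by_cases h2 : 2 * p < j
    · rw [S.van p j h2] at hv
      exact (Submodule.mem_bot _).1 hv
    · obtain ⟨a, ha, hav⟩ := (S.hl p (2 * p - j) (by omega)).2 v (by
        change v ∈ P p ⊓ gr (2 * p - (2 * p - j))
        rwa [show 2 * p - (2 * p - j) = j by omega])
      have h3 : a = 0 := key (2 * p - j) (by omega) a ha
      rw [← hav, h3, map_zero]
  · exact key j hj v hv

/-- A class is in the smaller step of the filtration if and only if it is killed by `h ^ s`. -/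
lemma mem_below_iff {s : ℕ} (hs : h ^ (s + 1) = 0) {j : ℕ} {x : V} (hx : x ∈ gr j) :
    x ∈ below P (j + s) ↔ (h ^ s) x = 0 := by
  have h1 : (h ^ s) x = proj S.iP (j + s) ((h ^ s) x) := by
    conv_lhs => rw [S.sumP ((h ^ s) x)]
    have hz : ∀ q, q ≠ j + s → proj S.iP q ((h ^ s) x) = 0 := by
      intro q hq
      have h2 : proj S.iP q ((h ^ s) x) ∈ P q ⊓ gr (j + 2 * s) := by
        refine ⟨proj_mem _ _ _, S.projP_gr ?_ q⟩
        exact pow_L_mem S.hgr hx s
      rcases lt_or_gt_of_ne hq with hlt | hgt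
      · rw [piece_bot S hs (Or.inl (by omega))] at h2
        exact (Submodule.mem_bot _).1 h2
      · rw [← S.pow_h_projP]
        have h3 : proj S.iP q x ∈ P q ⊓ gr j := ⟨proj_mem _ _ _, S.projP_gr hx q⟩
        rw [piece_bot S hs (Or.inr (by omega))] at h3
        rw [(Submodule.mem_bot _).1 h3, map_zero]
    by_cases hm : j + s < 2 * m + 1
    · rw [Finset.sum_eq_single (j + s) (fun q _ hq => hz q hq)
        (fun h' => absurd (Finset.mem_range.2 hm) h')]
    · rw [Finset.sum_eq_zero (fun q hq => hz q (by have := Finset.mem_range.1 hq; omega))]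
      have h3 := proj_mem S.iP (j + s) ((h ^ s) x)
      rw [S.bP _ (by omega)] at h3
      exact ((Submodule.mem_bot _).1 h3).symm
  rw [mem_below S.iP S.bP]
  constructor
  · intro hb
    rw [h1, ← S.pow_h_projP, hb _ le_rfl, map_zero]
  · intro h0 q hq
    rcases hq.eq_or_lt with rfl | hlt
    · refine (S.hl (j + s) j (by omega)).1 _ ⟨proj_mem _ _ _, S.projP_gr hx _⟩ ?_
      rw [show j + s - j = s by omega, S.pow_h_projP, h0, map_zero]
    · have h3 : proj S.iP q x ∈ P q ⊓ gr j := ⟨proj_mem _ _ _, S.projP_gr hx q⟩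
      rw [piece_bot S hs (Or.inr (by omega))] at h3
      exact (Submodule.mem_bot _).1 h3

lemma mem_below_succ {s : ℕ} (hs : h ^ (s + 1) = 0) {j : ℕ} {x : V} (hx : x ∈ gr j) :
    x ∈ below P (j + s + 1) := by
  rw [mem_below S.iP S.bP]
  intro q hq
  have h3 : proj S.iP q x ∈ P q ⊓ gr j := ⟨proj_mem _ _ _, S.projP_gr hx q⟩
  rw [piece_bot S hs (Or.inr (by omega))] at h3
  exact (Submodule.mem_bot _).1 h3

/-- The part of the filtration that gives the restriction to the generic fibre. -/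
lemma gd_fibre (hA : Stable gr h e A) {s : ℕ} (hs : h ^ (s + 1) = 0) (c : ℤ) :
    gd P A (2 * c + s, c) = (Module.finrank K (A c) : ℤ) -
      Module.finrank K (A c ⊓ LinearMap.ker (h ^ s) : Submodule K V) := by
  by_cases hc : c < 0
  · rw [gd_bot P A (hA.bot_of_neg hc), hA.bot_of_neg hc, bot_inf_eq, sub_self]
  obtain ⟨d, rfl⟩ := Int.eq_ofNat_of_zero_le (show 0 ≤ c by omega)
  have hg : ∀ x ∈ A d, x ∈ gr (2 * d) := by
    intro x hx
    have := hA.deg _ hx
    rwa [show 2 * (d : ℤ) = ((2 * d : ℕ) : ℤ) by push_cast; ring, grZ_natCast] at this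
  simp only [gd]
  rw [show (2 * (d : ℤ) + s + 1).toNat = 2 * d + s + 1 by omega,
    show (2 * (d : ℤ) + s).toNat = 2 * d + s by omega]
  have e1 : A d ⊓ below P (2 * d + s + 1) = A d :=
    inf_eq_left.2 fun x hx => mem_below_succ S hs (hg x hx)
  have e2 : A d ⊓ below P (2 * d + s) = A d ⊓ LinearMap.ker (h ^ s) := by
    ext x
    rw [Submodule.mem_inf, Submodule.mem_inf, LinearMap.mem_ker]
    constructor
    · rintro ⟨hx, hx'⟩
      exact ⟨hx, (mem_below_iff S hs (hg x hx)).1 hx'⟩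
    · rintro ⟨hx, hx'⟩
      exact ⟨hx, (mem_below_iff S hs (hg x hx)).2 hx'⟩
  rw [e1, e2]

/-- **The defect of the restrictions to the generic fibre.** -/
theorem fibre_le (hA : Stable gr h e A) {s : ℕ} (hs : h ^ (s + 1) = 0) :
    ∑ᶠ c : ℤ, (2 * c - ((m : ℤ) - s)) * ((Module.finrank K (A c) : ℤ) -
      Module.finrank K (A c ⊓ LinearMap.ker (h ^ s) : Submodule K V)) ≤
    ∑ c ∈ range (m + 1), (2 * (c : ℤ) - m) * Module.finrank K (A c) := by
  rw [← total S hA]
  have h1 := sum_ge_fibre (gd P A) m s (gd_support S hA) (gd_refA S hA) (gd_refB S hA)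
  refine le_trans (le_of_eq ?_) h1
  exact finsum_congr fun c => by rw [gd_fibre S hA hs]

/-- **The defect of the image.** -/
theorem image_le (hA : Stable gr h e A) {s : ℕ} {B : ℤ → Submodule K V} (hBA : ∀ c, B c ≤ A c)
    (hBP : ∀ c, B c ≤ P s)
    (hB : ∀ c d : ℕ, c + d = s → 2 * c ≤ s → ∀ x ∈ A c ⊓ below P (s + 1),
      (h ^ (s - 2 * c)) x ∈ B d ⊔ below P s → x ∈ B c ⊔ below P s) :
    ∑ᶠ c : ℤ, (2 * c - (s : ℤ)) * (Module.finrank K (B c) : ℤ) ≤
    ∑ c ∈ range (m + 1), (2 * (c : ℤ) - m) * Module.finrank K (A c) := by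
  rw [← total S hA]
  have hB0 : ∀ c : ℤ, A c = ⊥ → B c = ⊥ := fun c hc => by
    rw [eq_bot_iff, ← hc]
    exact hBA c
  have hle : ∀ c, B c ≤ below P (s + 1) := by
    intro c x hx
    refine Submodule.mem_iSup_of_mem s (Submodule.mem_iSup_of_mem (Nat.lt_succ_self s) ?_)
    exact hBP c hx
  have hdisj : ∀ c, B c ⊓ below P s = ⊥ := by
    intro c
    rw [eq_bot_iff]
    rintro x ⟨hx1, hx2⟩
    have h2 : x ∈ below P s := hx2
    rw [mem_below S.iP S.bP] at h2
    have := h2 s le_rfl
    rwa [proj_same S.iP (hBP c hx1)] at this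
  have hfr : ∀ c, (Module.finrank K (B c ⊔ (A c ⊓ below P s) : Submodule K V) : ℤ) =
      Module.finrank K (B c) + Module.finrank K (A c ⊓ below P s : Submodule K V) := by
    intro c
    have h1 := Submodule.finrank_sup_add_finrank_inf_eq (B c) (A c ⊓ below P s)
    have h2 : B c ⊓ (A c ⊓ below P s) = ⊥ := by
      rw [← inf_assoc, inf_eq_left.2 (hBA c), hdisj]
    rw [h2, finrank_bot, add_zero] at h1
    exact_mod_cast h1
  have hgd : ∀ c, gd P A ((s : ℤ), c) - Module.finrank K (B c) =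
      (Module.finrank K (A c ⊓ below P (s + 1) : Submodule K V) : ℤ) -
        Module.finrank K (B c ⊔ (A c ⊓ below P s) : Submodule K V) := by
    intro c
    rw [hfr]
    simp only [gd]
    rw [show ((s : ℤ) + 1).toNat = s + 1 by omega, show (s : ℤ).toNat = s by omega]
    ring
  have hsub : ∀ c, B c ⊔ (A c ⊓ below P s) ≤ A c ⊓ below P (s + 1) := fun c =>
    sup_le (le_inf (hBA c) (hle c)) (inf_le_inf_left _ (below_mono (Nat.le_succ s)))
  refine sum_ge_image (gd P A) (fun c => (Module.finrank K (B c) : ℤ)) m s (gd_support S hA) ?_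
    (gd_refA S hA) (gd_refB S hA) ?_
  · refine (Set.finite_Icc (0 : ℤ) m).subset ?_
    intro c hc
    rw [Function.mem_support] at hc
    constructor
    · by_contra h0
      apply hc
      rw [hB0 c (hA.bot_of_neg (by omega)), finrank_bot, Nat.cast_zero]
    · by_contra h0
      apply hc
      rw [hB0 c (bot_of_gt S hA (by omega)), finrank_bot, Nat.cast_zero]
  · intro c hc
    rw [hgd, hgd]
    by_cases hc0 : c < 0
    · rw [hA.bot_of_neg hc0, hB0 c (hA.bot_of_neg hc0), bot_inf_eq, bot_inf_eq, sup_bot_eq, sub_self,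
        sub_nonneg]
      exact_mod_cast Submodule.finrank_mono (hsub _)
    obtain ⟨d, rfl⟩ := Int.eq_ofNat_of_zero_le (show 0 ≤ c by omega)
    refine quot_le (hsub _) (hsub _) (h ^ (s - 2 * d)) ?_ ?_
    · rintro x ⟨hx1, hx2⟩
      refine ⟨?_, pow_h_below S hx2⟩
      have := hA.pow_h hx1 (s - 2 * d)
      rwa [show (d : ℤ) + ((s - 2 * d : ℕ) : ℤ) = s - d by omega] at this
    · rintro x ⟨hx1, hx2⟩ hx3
      have h3 : x ∈ B d ⊔ below P s := by
        refine hB d (s - d) (by omega) (by omega) x ⟨hx1, hx2⟩ ?_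
        rw [show ((s - d : ℕ) : ℤ) = (s : ℤ) - d by omega]
        exact (sup_le_sup (le_refl (B ((s : ℤ) - d)))
          (inf_le_right (a := A ((s : ℤ) - d)) (b := below P s))) hx3
      obtain ⟨b, hb, y, hy, hxy⟩ := Submodule.mem_sup.1 h3
      refine Submodule.mem_sup.2 ⟨b, hb, y, ⟨?_, hy⟩, hxy⟩
      have h4 : y = x - b := by rw [← hxy]; abel
      change y ∈ A d
      rw [h4]
      exact Submodule.sub_mem _ hx1 (hBA _ hb)

end

end Pool.Agent.V5helper84.Mono
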